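import Pool.Agent.V8H46.GC.Cor

/-!
# DAG-like GCNF simulates resolution refutations with few path patterns

`GStep`, `GProof`: GCNF in DAG form; `Refutation S`: resolution refutations of `S` in DAG form.
-/

set_option autoImplicit false

namespace Pool.Agent.Results.MP_a300b0_lc.FewPathPatterns

open Pool.Agent.V8H46.GC

/-- Let `S` be a set of nonempty clauses, `R` a resolution refutation of `S` in DAG form, `A` any
truth assignment and `N = size R + size S`. There is a GCNF refutation of `S` in DAG form
(1) of size at most `35 p N ^ 3`, if above each line at most `p` pairs `(C, Y)` occur, where `C` is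
an initial clause and `Y` is the set of the literals of `C` that are true under `A` and are resolved
upon on a path from the line to an occurrence of `C`;
(2) of size at most `35 · 2 ^ k · N ^ 4`, if every clause of `S` has at most `k` literals that are
true under `A`;
(3) of size at most `35 N ^ 4`, if no literal that is true under `A` is resolved upon twice on a
path (this holds for regular refutations and every `A`);
(4) of size at most `35 N ^ 4`, if at every inference of `R` one of the two premises is false under
`A` (semantic resolution, for constant `A` positive and negative resolution). -/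
theorem result {V : Type} [DecidableEq V] (S : Cedent V) (h0 : (∅ : Clause V) ∉ S)
    (R : Refutation S) (A : V → Bool) :
    (∀ p : ℕ, 1 ≤ p → (∀ i, R.Needed i → ∃ F : Finset (Clause V × Clause V), F.card ≤ p ∧
      ∀ C X, R.Path i C X → (C, tr A X) ∈ F) →
      ∃ L : List (Cedent V), GProof (S :: L) ∧
        gsize (S :: L) ≤ 35 * p * (R.size + csize S) ^ 3) ∧
    (∀ k : ℕ, (∀ C ∈ S, (tr A C).card ≤ k) →
      ∃ L : List (Cedent V), GProof (S :: L) ∧
        gsize (S :: L) ≤ 35 * 2 ^ k * (R.size + csize S) ^ 4) ∧
    (R.OneSidedRegular A →
      ∃ L : List (Cedent V), GProof (S :: L) ∧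
        gsize (S :: L) ≤ 35 * (R.size + csize S) ^ 4) ∧
    (R.Regular → R.OneSidedRegular A) ∧
    (R.Semantic A →
      ∃ L : List (Cedent V), GProof (S :: L) ∧
        gsize (S :: L) ≤ 35 * (R.size + csize S) ^ 4) :=
  ⟨fun p hp hF => simulate R h0 A p hp (fun i _ hn => hF i hn),
    fun k hk => one_sided R h0 A k hk,
    fun h => one_sided_regular R h0 A h,
    fun h => oneSidedRegular_of_regular R A h,
    fun h => semantic R h0 A h⟩

end Pool.Agent.Results.MP_a300b0_lc.FewPathPatterns
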